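import Pool.Agent.P8H98.DF.Dbl5

/-!
# Exponents along sparse lengths (abstract criterion)
-/

set_option autoImplicit false

namespace Pool.Agent.P8H98.HY

open Filter Topology Pool.Agent.P8H98.DF Pool.Agent.P8H98.DF.Dbl4

/-- `m^(1/4) √(log m) ≤ m` -/
theorem rho_le (m : ℕ) : (m : ℝ) ^ (1 / 4 : ℝ) * Real.sqrt (Real.log m) ≤ m := by
  rcases Nat.eq_zero_or_pos m with rfl | hm
  · simp
  · have h1 : (1 : ℝ) ≤ m := by exact_mod_cast hm
    have h0 : (0 : ℝ) ≤ m := by linarith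
    have a1 : (m : ℝ) ^ (1 / 4 : ℝ) ≤ Real.sqrt m := by
      rw [Real.sqrt_eq_rpow]
      exact Real.rpow_le_rpow_of_exponent_le h1 (by norm_num)
    have a2 : Real.sqrt (Real.log m) ≤ Real.sqrt m :=
      Real.sqrt_le_sqrt (by have := Real.log_le_sub_one_of_pos (show (0 : ℝ) < m by linarith); linarith)
    calc (m : ℝ) ^ (1 / 4 : ℝ) * Real.sqrt (Real.log m) ≤ Real.sqrt m * Real.sqrt m :=
          mul_le_mul a1 a2 (Real.sqrt_nonneg _) (Real.sqrt_nonneg _)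
      _ = m := Real.mul_self_sqrt h0

theorem r_tend : Tendsto r atTop (𝓝 0) := by
  refine squeeze_zero' (Eventually.of_forall fun n => r_nonneg n) ?_ r_log
  filter_upwards [log_tend.eventually_ge_atTop 1] with n hn
  exact le_mul_of_one_le_right (r_nonneg n) hn

/-- `m^(1/4) √(log m) r m = log m` -/
theorem rho_r {m : ℕ} (hm : 1 ≤ m) :
    (m : ℝ) ^ (1 / 4 : ℝ) * Real.sqrt (Real.log m) * r m = Real.log m := by
  have hm0 : (0 : ℝ) < m := by exact_mod_cast hm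
  have h1 : (m : ℝ) ^ (1 / 4 : ℝ) ≠ 0 := by positivity
  unfold r
  rw [Real.rpow_neg hm0.le]
  have h2 : Real.sqrt (Real.log m) * Real.sqrt (Real.log m) = Real.log m :=
    Real.mul_self_sqrt (Real.log_natCast_nonneg m)
  calc (m : ℝ) ^ (1 / 4 : ℝ) * Real.sqrt (Real.log m) *
        (((m : ℝ) ^ (1 / 4 : ℝ))⁻¹ * Real.sqrt (Real.log m)) =
        (m : ℝ) ^ (1 / 4 : ℝ) * ((m : ℝ) ^ (1 / 4 : ℝ))⁻¹ *
          (Real.sqrt (Real.log m) * Real.sqrt (Real.log m)) := by ring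
    _ = _ := by rw [mul_inv_cancel₀ h1, h2, one_mul]

/-- the criterion -/
theorem crit {y : ℕ → ℝ} {K a : ℝ} {q : ℕ} {S : Set ℕ} (hK : 0 ≤ K)
    (hstep : ∀ᶠ m : ℕ in atTop, m ∈ S → ∀ j : ℕ, (j : ℝ) ≤ Real.sqrt m → 0 < y (m + 2 * j) ∧
      |Real.log (y (m + 2 * j)) - Real.log (y m)| ≤ j * (K * r m))
    (hS : ∀ m ∈ S, m % 2 = q)
    (hL : ∀ δ : ℝ, 0 < δ → ∀ᶠ n : ℕ in atTop, ∃ m ∈ S, m ≤ n ∧
      (n : ℝ) ≤ m + δ * ((m : ℝ) ^ (1 / 4 : ℝ) * Real.sqrt (Real.log m)))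
    (hE : ∀ ε : ℝ, 0 < ε → ∀ᶠ n : ℕ in atTop, n ∈ S →
      (n : ℝ) ^ (a - ε) ≤ y n ∧ y n ≤ (n : ℝ) ^ (a + ε)) (ε : ℝ) (hε : 0 < ε) :
    ∀ᶠ n : ℕ in atTop, n ∈ {n : ℕ | n % 2 = q} →
      (n : ℝ) ^ (a - ε) ≤ y n ∧ y n ≤ (n : ℝ) ^ (a + ε) := by
  set δ := ε / (2 * K + 1) with hδ
  have hδ0 : 0 < δ := by positivity
  have hKδ : K * δ / 2 ≤ ε / 4 := by
    rw [hδ, mul_div_assoc', div_div, div_le_iff₀ (by positivity)]
    nlinarith
  have hsq : ∀ᶠ m : ℕ in atTop, δ * ((m : ℝ) ^ (1 / 4 : ℝ) * Real.sqrt (Real.log m)) ≤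
      2 * Real.sqrt m := by
    filter_upwards [(r_tend.const_mul δ).eventually_lt_const (show δ * 0 < 2 by norm_num),
      eventually_ge_atTop 1] with m h1 hm
    have hm0 : (0 : ℝ) < m := by exact_mod_cast hm
    have e : (m : ℝ) ^ (1 / 4 : ℝ) * Real.sqrt (Real.log m) = r m * Real.sqrt m := by
      unfold r
      have : (m : ℝ) ^ (1 / 4 : ℝ) = (m : ℝ) ^ (-(1 / 4) : ℝ) * Real.sqrt m := by
        rw [Real.sqrt_eq_rpow, ← Real.rpow_add hm0]
        norm_num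
      rw [this]
      ring
    rw [e, ← mul_assoc]
    exact mul_le_mul_of_nonneg_right h1.le (Real.sqrt_nonneg _)
  obtain ⟨N1, hN1⟩ := eventually_atTop.1 hstep
  obtain ⟨N2, hN2⟩ := eventually_atTop.1 (hE (ε / 4) (by positivity))
  obtain ⟨N3, hN3⟩ := eventually_atTop.1 hsq
  obtain ⟨N4, hN4⟩ := eventually_atTop.1 ((log_tend.const_mul_atTop
    (show 0 < ε / 4 by positivity)).eventually_ge_atTop (|a| * 2))
  obtain ⟨k, hk⟩ := exists_nat_ge (1 + δ)
  filter_upwards [hL δ hδ0, eventually_ge_atTop (k * (N1 + N2 + N3 + N4 + 4))] with n hn hbig hq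
  obtain ⟨m, hm, hmn, hgap⟩ := hn
  have hmbig : N1 + N2 + N3 + N4 + 4 ≤ m := by
    by_contra hcon
    push Not at hcon
    have h1 := mul_le_mul_of_nonneg_left (rho_le m) hδ0.le
    have h2 : (n : ℝ) ≤ (1 + δ) * m := by linarith
    have h3 : (n : ℝ) ≤ k * m := h2.trans (mul_le_mul_of_nonneg_right hk (Nat.cast_nonneg m))
    have h4 : n ≤ k * m := by exact_mod_cast h3
    have hk1 : 0 < k := by
      have : (0 : ℝ) < k := by linarith
      exact_mod_cast this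
    have h5 := Nat.mul_lt_mul_of_pos_left hcon hk1
    omega
  have hmq := hS m hm
  have hnq : n % 2 = q := hq
  obtain ⟨j, hj⟩ : ∃ j, n = m + 2 * j := ⟨(n - m) / 2, by omega⟩
  have hm0 : (0 : ℝ) < m := by exact_mod_cast (show 0 < m by omega)
  have hn0 : (0 : ℝ) < n := by exact_mod_cast (show 0 < n by omega)
  have hj2 : (2 : ℝ) * j ≤ δ * ((m : ℝ) ^ (1 / 4 : ℝ) * Real.sqrt (Real.log m)) := by
    have : (n : ℝ) = m + 2 * j := by rw [hj]; push_cast; ring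
    linarith
  have hsm := hN3 m (by omega)
  obtain ⟨s1, s2⟩ := hN1 m (by omega) hm j (by linarith)
  rw [← hj] at s1 s2
  obtain ⟨e1, e2⟩ := hN2 m (by omega) hm
  have hlm : 0 ≤ Real.log (m : ℝ) := Real.log_natCast_nonneg m
  have s3 : (j : ℝ) * (K * r m) ≤ ε / 4 * Real.log m := by
    have h1 := mul_le_mul_of_nonneg_right hj2 (show 0 ≤ K * r m from mul_nonneg hK (r_nonneg m))
    have h2 : δ * ((m : ℝ) ^ (1 / 4 : ℝ) * Real.sqrt (Real.log m)) * (K * r m) =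
        K * δ * Real.log m := by
      have h4 := rho_r (show 1 ≤ m by omega)
      calc δ * ((m : ℝ) ^ (1 / 4 : ℝ) * Real.sqrt (Real.log m)) * (K * r m) =
          K * δ * ((m : ℝ) ^ (1 / 4 : ℝ) * Real.sqrt (Real.log m) * r m) := by ring
        _ = _ := by rw [h4]
    have h3 := mul_le_mul_of_nonneg_right hKδ hlm
    linarith
  have s4 := abs_le.1 (s2.trans s3)
  have hy : 0 < y m := lt_of_lt_of_le (Real.rpow_pos_of_pos hm0 _) e1
  have g1 : (a - ε / 4) * Real.log m ≤ Real.log (y m) := by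
    have := Real.log_le_log (Real.rpow_pos_of_pos hm0 _) e1
    rwa [Real.log_rpow hm0] at this
  have g2 : Real.log (y m) ≤ (a + ε / 4) * Real.log m := by
    have := Real.log_le_log hy e2
    rwa [Real.log_rpow hm0] at this
  have l1 : Real.log m ≤ Real.log n := Real.log_le_log hm0 (by exact_mod_cast hmn)
  have l2 : Real.log n - Real.log m ≤ 2 := by
    rw [← Real.log_div hn0.ne' hm0.ne']
    have h1 := Real.log_le_sub_one_of_pos (show 0 < (n : ℝ) / m by positivity)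
    have h2 : (n : ℝ) / m ≤ 3 := by
      rw [div_le_iff₀ hm0]
      have h3 : Real.sqrt m ≤ m := by
        rw [Real.sqrt_le_left hm0.le]
        have : (1 : ℝ) ≤ m := by exact_mod_cast (show 1 ≤ m by omega)
        nlinarith
      linarith
    linarith
  have l3 : |a * (Real.log n - Real.log m)| ≤ ε / 4 * Real.log m := by
    rw [abs_mul, abs_of_nonneg (show 0 ≤ Real.log n - Real.log m by linarith)]
    exact (mul_le_mul_of_nonneg_left l2 (abs_nonneg a)).trans (hN4 m (by omega))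
  have l4 := abs_le.1 l3
  have l5 : ε / 4 * Real.log m ≤ ε / 4 * Real.log n := mul_le_mul_of_nonneg_left l1 (by positivity)
  constructor
  · rw [Real.rpow_def_of_pos hn0, ← Real.le_log_iff_exp_le s1]
    linarith [s4.1, l4.2]
  · rw [Real.rpow_def_of_pos hn0, ← Real.log_le_iff_le_exp s1]
    linarith [s4.2, l4.1]

end Pool.Agent.P8H98.HY
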