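import Pool.Agent.P8H98.DF.Dbl5
import Pool.Agent.P8H98.DF.All

/-!
# Polygons on `ℤ⁴` as walks that end next to the origin
-/

set_option autoImplicit false

namespace Pool.Agent.P8H98.HY

open Filter Topology Pool.Agent.P8H98.DF Pool.Agent.P8H98.DF.Dbl4

/-- `p` is a self-avoiding polygon of length `n` on `ℤ⁴`, as a rooted oriented path. -/
def IsPolygon (n : ℕ) (p : Fin (n + 1) → Fin 4 → ℤ) : Prop :=
  p 0 = 0 ∧ p (Fin.last n) = 0 ∧ (∀ i : Fin n, ∑ j, |p i.succ j - p i.castSucc j| = 1) ∧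
    Function.Injective (fun i : Fin n => p i.castSucc)

/-- the number of polygons -/
noncomputable def A (n : ℕ) : ℝ := ({p | IsPolygon n p}.ncard : ℝ)

/-- the indicator function of the neighbours of the origin -/
noncomputable def f0 (x : Fin 4 → ℤ) : ℝ := by
  classical
  exact if ∑ j, |x j| = 1 then 1 else 0

theorem f0_bd (x : Fin 4 → ℤ) : 0 ≤ f0 x ∧ f0 x ≤ 1 := by
  unfold f0
  split_ifs <;> norm_num

theorem poly_bij (k : ℕ) : Set.BijOn (fun (p : Fin (k + 1 + 1) → Fin 4 → ℤ) (i : Fin (k + 1)) =>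
    p i.castSucc) {p | IsPolygon (k + 1) p} {ω | IsSAW k ω ∧ ∑ j, |ω (Fin.last k) j| = 1} := by
  refine ⟨?_, ?_, ?_⟩
  · rintro p ⟨h0, hl, hs, hi⟩
    refine ⟨⟨?_, fun i => ?_, hi⟩, ?_⟩
    · exact h0
    · have := hs i.castSucc
      rwa [Fin.succ_castSucc] at this
    · have := hs (Fin.last k)
      rw [Fin.succ_last, hl] at this
      simpa using this
  · rintro p ⟨h0, hl, hs, hi⟩ p' ⟨h0', hl', hs', hi'⟩ h
    funext i
    refine Fin.lastCases ?_ (fun i => ?_) i
    · rw [hl, hl']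
    · exact congrFun h i
  · rintro ω ⟨⟨h0, hs, hi⟩, hl⟩
    refine ⟨Fin.snoc (α := fun _ => Fin 4 → ℤ) ω 0, ⟨?_, ?_, fun i => ?_, ?_⟩, ?_⟩
    · have : (0 : Fin (k + 1 + 1)) = (0 : Fin (k + 1)).castSucc := rfl
      rw [this, Fin.snoc_castSucc, h0]
    · exact Fin.snoc_last _ _
    · refine Fin.lastCases ?_ (fun i => ?_) i
      · rw [Fin.succ_last, Fin.snoc_last, Fin.snoc_castSucc]
        simpa using hl
      · rw [Fin.succ_castSucc, Fin.snoc_castSucc, Fin.snoc_castSucc]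
        exact hs i
    · intro i i' h
      simp only [Fin.snoc_castSucc] at h
      exact hi h
    · funext i
      simp only [Fin.snoc_castSucc]

theorem A_eq (k : ℕ) : A (k + 1) = mean k f0 * cN k := by
  classical
  have hb := Pool.Agent.P8H63.DF.bij k
  have h1 : A (k + 1) = ({ω | IsSAW k ω ∧ ∑ j, |ω (Fin.last k) j| = 1}.ncard : ℝ) := by
    unfold A
    rw [← (poly_bij k).image_eq, (poly_bij k).injOn.ncard_image]
  have hlen : ∀ u ∈ SS k, Pool.Agent.P8H63.DF.wk k u (Fin.last k) = E (pos u) := by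
    intro u hu
    exact Pool.Agent.P8H63.DF.wk_last
  have h2 : {ω | IsSAW k ω ∧ ∑ j, |ω (Fin.last k) j| = 1} =
      Pool.Agent.P8H63.DF.wk k '' ((SS k).filter (fun u => ∑ j, |E (pos u) j| = 1) : Set (List Dir)) := by
    ext ω
    constructor
    · rintro ⟨hω, hl⟩
      obtain ⟨u, hu, rfl⟩ := hb.surjOn hω
      refine ⟨u, ?_, rfl⟩
      have hu' : u ∈ SS k := hu
      rw [hlen u hu'] at hl
      simp only [Finset.coe_filter, Set.mem_ofPred_eq]
      exact ⟨hu', hl⟩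
    · rintro ⟨u, hu, rfl⟩
      simp only [Finset.coe_filter, Set.mem_ofPred_eq] at hu
      refine ⟨hb.mapsTo hu.1, ?_⟩
      rw [hlen u hu.1]
      exact hu.2
  have hc : (0 : ℝ) < (SS k).card := by
    have := wkc.cpos k
    unfold cN at this
    rwa [Pool.Agent.P8H63.DF.end_thm.2.2.2.2 k] at this
  rw [h1, h2, Set.InjOn.ncard_image (hb.injOn.mono (fun u hu => by
    simp only [Finset.coe_filter, Set.mem_ofPred_eq] at hu
    exact hu.1)), Set.ncard_coe_finset, Pool.Agent.P8H63.DF.end_thm.1 k f0]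
  unfold cN
  rw [Pool.Agent.P8H63.DF.end_thm.2.2.2.2 k, div_mul_cancel₀ _ hc.ne']
  unfold f0
  rw [Finset.sum_boole]

end Pool.Agent.P8H98.HY
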