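import Pool.Agent.P8H98.HY.A
import Pool.Agent.P8H98.HY.B

/-!
# Polygons on `ℤ⁴`: steps from a length at which they are not too few
-/

set_option autoImplicit false

namespace Pool.Agent.P8H98.HY

open Filter Topology Pool.Agent.P8H98.DF Pool.Agent.P8H98.DF.Dbl4

theorem sz_eq {n : ℕ} (hn : 1 ≤ n) : sz4 n = n * r n ^ 2 := by
  have hn0 : (0 : ℝ) < n := by exact_mod_cast hn
  have h2 : Real.sqrt (Real.log n) ^ 2 = Real.log n := Real.sq_sqrt (Real.log_natCast_nonneg n)
  have h3 : ((n : ℝ) ^ (-(1 / 4) : ℝ)) ^ 2 * n = Real.sqrt n := by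
    rw [← Real.rpow_natCast, ← Real.rpow_mul hn0.le, Real.sqrt_eq_rpow, ← Real.rpow_add_one hn0.ne']
    norm_num
  unfold sz4 r
  rw [mul_pow, h2, ← h3]
  ring

theorem sz_mono {n m : ℕ} (hn : 1 ≤ n) (h : n ≤ m) : sz4 n ≤ sz4 m := by
  have h1 : (n : ℝ) ≤ m := by exact_mod_cast h
  unfold sz4
  exact mul_le_mul (Real.sqrt_le_sqrt h1) (Real.log_le_log (by exact_mod_cast hn) h1)
    (Real.log_natCast_nonneg n) (Real.sqrt_nonneg _)

/-- the chain for the means of one function -/
theorem pchain {f : (Fin 4 → ℤ) → ℝ} (hf : ∀ x, 0 ≤ f x ∧ f x ≤ 1) {K₀ : ℝ} (hK₀ : 0 ≤ K₀) :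
    ∃ K : ℝ, 0 ≤ K ∧ ∀ᶠ n : ℕ in atTop, 0 < mean n f → Real.log (1 / mean n f) ≤ K₀ * sz4 n →
      ∀ j : ℕ, (j : ℝ) ≤ 2 * Real.sqrt n → 0 < mean (n + 2 * j) f ∧
        |Real.log (mean (n + 2 * j) f) - Real.log (mean n f)| ≤ j * (K * r n) := by
  obtain ⟨C, hC, hpt⟩ := ptT 1 le_rfl
  set K : ℝ := 2 * (C * Real.sqrt (K₀ + 2)) with hKdef
  have hK0 : 0 ≤ K := by positivity
  refine ⟨K, hK0, ?_⟩
  have e1 : ∀ᶠ n : ℕ in atTop, C * (K₀ + 2) * (r n * r n) ≤ 1 := by
    have h := (r_tend.mul r_tend).const_mul (C * (K₀ + 2))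
    rw [mul_zero, mul_zero] at h
    exact (h.eventually_lt_const one_pos).mono fun _ h => h.le
  have e2 : ∀ᶠ n : ℕ in atTop, 2 * K * r n ≤ 1 := by
    have h := r_tend.const_mul (2 * K)
    rw [mul_zero] at h
    exact (h.eventually_lt_const one_pos).mono fun _ h => h.le
  obtain ⟨N1, hN1⟩ := eventually_atTop.1 e1
  filter_upwards [eventually_ge_atTop (N1 + 4), e2, log_tend.eventually_ge_atTop 1]
    with n hn he2 hlog hpos hG j
  have hn0 : (0 : ℝ) < n := by exact_mod_cast (show 0 < n by omega)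
  have hsn : Real.sqrt n * Real.sqrt n = n := Real.mul_self_sqrt hn0.le
  have hs2 : 2 ≤ Real.sqrt (n : ℝ) := by
    have h4 : (4 : ℝ) ≤ n := by exact_mod_cast (show 4 ≤ n by omega)
    rw [show (2 : ℝ) = Real.sqrt 4 by rw [show (4 : ℝ) = 2 ^ 2 by norm_num, Real.sqrt_sq (by norm_num)]]
    exact Real.sqrt_le_sqrt h4
  induction j with
  | zero => intro _; simpa using hpos
  | succ j ih =>
    intro hj
    push_cast at hj
    obtain ⟨i1, i2⟩ := ih (by linarith)
    have hm4 : n + 2 * j ≤ 4 * n := by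
      have h1 : (j : ℝ) ≤ n := by
        have : (j : ℝ) ≤ 2 * Real.sqrt n := by linarith
        nlinarith
      have h2 : j ≤ n := by exact_mod_cast h1
      omega
    set m := n + 2 * j with hm
    have hm1 : 1 ≤ m := by omega
    have hm0 : (0 : ℝ) < m := by exact_mod_cast hm1
    -- the size at `m`
    have g1 : Real.log (1 / mean m f) ≤ (K₀ + 1) * sz4 m := by
      have a1 : (j : ℝ) * (K * r n) ≤ sz4 n := by
        have b1 : (j : ℝ) * (K * r n) ≤ 2 * Real.sqrt n * (K * r n) :=
          mul_le_mul_of_nonneg_right (by linarith) (mul_nonneg hK0 (r_nonneg n))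
        have b2 : 2 * Real.sqrt n * (K * r n) = Real.sqrt n * (2 * K * r n) := by ring
        have b3 : Real.sqrt n * (2 * K * r n) ≤ Real.sqrt n * Real.log n :=
          mul_le_mul_of_nonneg_left (by linarith) (Real.sqrt_nonneg _)
        unfold sz4
        linarith
      have a2 := (abs_le.1 i2).1
      rw [one_div, Real.log_inv] at hG ⊢
      have a3 := mul_le_mul_of_nonneg_left (sz_mono (show 1 ≤ n by omega) (show n ≤ m by omega))
        (show 0 ≤ K₀ + 1 by linarith)
      linarith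
    have g0 : 0 ≤ Real.log (1 / mean m f) := by
      have b1 : mean m f ≤ 1 := by
        rw [Pool.Agent.P8H63.DF.end_thm.1]
        exact div_le_one_of_le₀ ((Finset.sum_le_sum fun u _ => (hf _).2).trans
          (le_of_eq (by simp))) (Nat.cast_nonneg _)
      refine Real.log_nonneg ?_
      rw [le_div_iff₀ i1]
      linarith
    have g2 : sz4 m + Real.log (1 / mean m f) ≤ (K₀ + 2) * sz4 m := by linarith
    have g3 : C * (sz4 m + Real.log (1 / mean m f)) ≤ m := by
      have a1 := mul_le_mul_of_nonneg_left g2 hC.le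
      have a2 := mul_le_mul_of_nonneg_right (hN1 m (by omega)) hm0.le
      have a3 : C * ((K₀ + 2) * sz4 m) = C * (K₀ + 2) * (r m * r m) * m := by
        rw [sz_eq hm1]
        ring
      linarith
    obtain ⟨q1, q2⟩ := hpt f hf m (by omega) i1 g3
    have q3 := q1 1 le_rfl
    rw [Finset.sum_range_succ, Finset.sum_range_one] at q2
    simp only [pow_zero, pow_one, Nat.choose_zero_right, Nat.choose_self,
        Nat.cast_one, mul_one, one_mul, mul_zero, add_zero, neg_mul] at q2 q3
    have q4 : Real.sqrt ((sz4 m + Real.log (1 / mean m f)) / m) ≤ Real.sqrt (K₀ + 2) * r m := by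
      have a1 : (sz4 m + Real.log (1 / mean m f)) / m ≤ (K₀ + 2) * r m ^ 2 := by
        rw [div_le_iff₀ hm0]
        refine g2.trans (le_of_eq ?_)
        rw [sz_eq hm1]
        ring
      refine (Real.sqrt_le_sqrt a1).trans (le_of_eq ?_)
      rw [Real.sqrt_mul (by linarith), Real.sqrt_sq (r_nonneg m)]
    have q5 : r m ≤ 2 * r n := r_le (by omega) (by omega) hm4
    have q6 : C * Real.sqrt ((sz4 m + Real.log (1 / mean m f)) / m) ≤ K * r n := by
      calc C * Real.sqrt ((sz4 m + Real.log (1 / mean m f)) / m) ≤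
          C * (Real.sqrt (K₀ + 2) * (2 * r n)) :=
            mul_le_mul_of_nonneg_left (q4.trans (mul_le_mul_of_nonneg_left q5
              (Real.sqrt_nonneg _))) hC.le
        _ = K * r n := by rw [hKdef]; ring
    have e : n + 2 * (j + 1) = m + 2 := by omega
    rw [e]
    refine ⟨q3, ?_⟩
    have q7 : |Real.log (mean (m + 2) f) - Real.log (mean m f)| ≤ K * r n := by
      have a1 : Real.log (mean (m + 2) f) - Real.log (mean m f) =
        -(Real.log (mean m f) + -Real.log (mean (m + 2) f)) := by ring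
      rw [a1, abs_neg]
      exact q2.trans q6
    have q8 := abs_sub_le (Real.log (mean (m + 2) f)) (Real.log (mean m f)) (Real.log (mean n f))
    push_cast
    linarith

end Pool.Agent.P8H98.HY
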