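import Pool.Agent.P8H98.HY.C

/-!
# The exponents `α` and `ν` on `ℤ⁴` from sparse lengths
-/

set_option autoImplicit false

namespace Pool.Agent.P8H98.HY

open Filter Topology Pool.Agent.P8H98.DF Pool.Agent.P8H98.DF.Dbl4

theorem sm_c : ∃ C B : ℝ, Sm (fun n => Real.log (cN n / μ4 ^ n)) C B := by
  obtain ⟨C1, hC1p, hC1⟩ := countT 1 le_rfl
  obtain ⟨B2, hB2⟩ := wkc.par
  refine ⟨C1, B2, hC1p.le, fun n hn => ?_, fun n hn => hB2 n (by omega)⟩
  have h2 := hC1 n (by omega)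
  rw [Finset.sum_range_succ, Finset.sum_range_one] at h2
  simp only [pow_zero, pow_one, Nat.choose_zero_right, Nat.choose_self,
      Nat.cast_one, mul_one, one_mul, mul_zero, add_zero, neg_mul] at h2
  have hc : ∀ k, cN k = ((SS k).card : ℝ) := fun k => by
    unfold cN
    rw [Pool.Agent.P8H63.DF.end_thm.2.2.2.2 k]
  simp only [hc]
  have e : ∀ x y : ℝ, |x - y| = |y + -x| := fun x y => by
    rw [abs_sub_comm, sub_eq_add_neg]
  rw [e]
  exact h2

theorem r_back {n : ℕ} (hn : 4 ≤ n) : r n ≤ 2 * r (n + 1) := by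
  have hn0 : (0 : ℝ) < n := by exact_mod_cast (show 0 < n by omega)
  have hm0 : (0 : ℝ) < ((n + 1 : ℕ) : ℝ) := by positivity
  have h1 : (n : ℝ) ^ (-(1 / 4) : ℝ) ≤ 2 * ((n + 1 : ℕ) : ℝ) ^ (-(1 / 4) : ℝ) := by
    have h2 : (n : ℝ) ^ (-(1 / 4) : ℝ) ≤ (((n + 1 : ℕ) : ℝ) / 16) ^ (-(1 / 4) : ℝ) := by
      refine Real.rpow_le_rpow_of_nonpos (by positivity) ?_ (by norm_num)
      have : ((n + 1 : ℕ) : ℝ) ≤ 16 * n := by exact_mod_cast (show n + 1 ≤ 16 * n by omega)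
      linarith
    have h3 : (((n + 1 : ℕ) : ℝ) / 16) ^ (-(1 / 4) : ℝ) =
        2 * ((n + 1 : ℕ) : ℝ) ^ (-(1 / 4) : ℝ) := by
      have h4 : ((16 : ℝ)) ^ (-(1 / 4) : ℝ) = 1 / 2 := by
        rw [show (16 : ℝ) = 2 ^ (4 : ℝ) by norm_num, ← Real.rpow_mul (by norm_num)]
        norm_num [Real.rpow_neg_one]
      rw [Real.div_rpow hm0.le (by norm_num), h4]
      ring
    linarith
  unfold r
  have h5 : Real.sqrt (Real.log n) ≤ Real.sqrt (Real.log ((n + 1 : ℕ) : ℝ)) :=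
    Real.sqrt_le_sqrt (Real.log_le_log hn0 (by push_cast; linarith))
  calc (n : ℝ) ^ (-(1 / 4) : ℝ) * Real.sqrt (Real.log n) ≤
      2 * ((n + 1 : ℕ) : ℝ) ^ (-(1 / 4) : ℝ) * Real.sqrt (Real.log ((n + 1 : ℕ) : ℝ)) :=
        mul_le_mul h1 h5 (Real.sqrt_nonneg _) (by positivity)
    _ = _ := by ring

/-- the steps for the polygons -/
theorem astep {a : ℝ} {S : Set ℕ} (hE : ∀ ε : ℝ, 0 < ε → ∀ᶠ n : ℕ in atTop, n ∈ S →
      (n : ℝ) ^ (a - ε) ≤ A n / μ4 ^ n ∧ A n / μ4 ^ n ≤ (n : ℝ) ^ (a + ε)) :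
    ∃ K : ℝ, 0 ≤ K ∧ ∀ᶠ m : ℕ in atTop, m ∈ S → ∀ j : ℕ, (j : ℝ) ≤ Real.sqrt m →
      0 < A (m + 2 * j) / μ4 ^ (m + 2 * j) ∧
      |Real.log (A (m + 2 * j) / μ4 ^ (m + 2 * j)) - Real.log (A m / μ4 ^ m)| ≤
        j * (K * r m) := by
  have hμ : 0 < μ4 := wkc.hμ
  have hμ1 : 0 ≤ Real.log μ4 := Real.log_nonneg (by
    have := Pool.Agent.P8H4.DF.mu_thm
    have h : (27 / 5 : ℝ) ≤ μ4 := this
    linarith)
  obtain ⟨K₁, hK₁, hup⟩ := Pool.Agent.P8H63.DF.upb.1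
  obtain ⟨K, hK, hch⟩ := pchain f0_bd (K₀ := K₁ + 2 * |a - 1|) (by positivity)
  obtain ⟨C, B, hs⟩ := sm_c
  have hC := hs.C0
  obtain ⟨N1, hN1⟩ := eventually_atTop.1 hch
  refine ⟨2 * (K + 2 * C), by positivity, ?_⟩
  filter_upwards [hE 1 one_pos, eventually_ge_atTop (N1 + 6)] with m hm hbig hmS j hj
  obtain ⟨n, rfl⟩ : ∃ n, m = n + 1 := ⟨m - 1, by omega⟩
  obtain ⟨hlow, -⟩ := hm hmS
  have hn0 : (0 : ℝ) < n := by exact_mod_cast (show 0 < n by omega)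
  have hn5 : (5 : ℝ) ≤ n := by exact_mod_cast (show 5 ≤ n by omega)
  have hm0 : (0 : ℝ) < ((n + 1 : ℕ) : ℝ) := by positivity
  have hc := wkc.cpos n
  -- logarithms
  have hlog : ∀ k : ℕ, 0 < mean k f0 → Real.log (A (k + 1) / μ4 ^ (k + 1)) =
      Real.log (mean k f0) + Real.log (cN k / μ4 ^ k) - Real.log μ4 := by
    intro k hk
    have h1 := wkc.cpos k
    have h2 := pow_pos hμ k
    rw [A_eq, pow_succ, show mean k f0 * cN k / (μ4 ^ k * μ4) =
      mean k f0 * (cN k / μ4 ^ k) / μ4 by field_simp,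
      Real.log_div (by positivity) hμ.ne', Real.log_mul hk.ne' (by positivity)]
  have hy : 0 < A (n + 1) / μ4 ^ (n + 1) := lt_of_lt_of_le (Real.rpow_pos_of_pos hm0 _) hlow
  have hA : 0 < A (n + 1) := by
    have := mul_pos hy (pow_pos hμ (n + 1))
    rwa [div_mul_cancel₀ _ (pow_pos hμ _).ne'] at this
  have hmean : 0 < mean n f0 := by
    rw [A_eq] at hA
    exact (pos_iff_pos_of_mul_pos hA).2 hc
  have hl1 := Real.log_le_log (Real.rpow_pos_of_pos hm0 _) hlow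
  rw [Real.log_rpow hm0, hlog n hmean] at hl1
  have hl2 : Real.log (cN n / μ4 ^ n) ≤ K₁ * sz4 n := by
    have h1 := hup n n (by omega) (by omega)
    have h2 : cN n ≤ μ4 ^ n * Real.exp (K₁ * (Real.sqrt n * Real.log n)) := by
      have h3 : cN n = ((SS n).card : ℝ) := by
        unfold cN
        rw [Pool.Agent.P8H63.DF.end_thm.2.2.2.2 n]
      rw [h3, Pool.Agent.P8H4.DF.cc_thm n]
      exact h1
    have h4 : cN n / μ4 ^ n ≤ Real.exp (K₁ * (Real.sqrt n * Real.log n)) := by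
      rw [div_le_iff₀ (pow_pos hμ n)]
      linarith
    have h5 := Real.log_le_log (by positivity) h4
    rwa [Real.log_exp] at h5
  have hlm : Real.log ((n + 1 : ℕ) : ℝ) ≤ 2 * sz4 n := by
    have h1 : Real.log ((n + 1 : ℕ) : ℝ) ≤ Real.log ((n : ℝ) ^ (2 : ℕ)) := by
      refine Real.log_le_log hm0 ?_
      push_cast
      nlinarith
    rw [Real.log_pow] at h1
    have h2 : Real.log (n : ℝ) ≤ sz4 n := by
      unfold sz4
      refine le_mul_of_one_le_left (Real.log_natCast_nonneg n) ?_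
      rw [Real.one_le_sqrt]
      linarith
    push_cast at h1 ⊢
    linarith
  have hG : Real.log (1 / mean n f0) ≤ (K₁ + 2 * |a - 1|) * sz4 n := by
    rw [one_div, Real.log_inv]
    have h1 : -((a - 1) * Real.log ((n + 1 : ℕ) : ℝ)) ≤ |a - 1| * (2 * sz4 n) := by
      have h2 := mul_le_mul_of_nonneg_left hlm (abs_nonneg (a - 1))
      have h3 := neg_abs_le ((a - 1) * Real.log ((n + 1 : ℕ) : ℝ))
      rw [abs_mul, abs_of_nonneg (Real.log_natCast_nonneg (n + 1))] at h3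
      linarith
    linarith
  have hjn : (j : ℝ) ≤ 2 * Real.sqrt n := by
    refine hj.trans ?_
    rw [show (2 : ℝ) * Real.sqrt n = Real.sqrt (4 * n) by
      rw [Real.sqrt_mul (by norm_num : (0 : ℝ) ≤ 4), show (4 : ℝ) = 2 ^ 2 by norm_num,
        Real.sqrt_sq (by norm_num)]]
    refine Real.sqrt_le_sqrt ?_
    push_cast
    linarith
  obtain ⟨p1, p2⟩ := hN1 n (by omega) hmean hG j hjn
  have hj4 : n + 2 * j ≤ 4 * n := by
    have hsn : Real.sqrt n * Real.sqrt n = n := Real.mul_self_sqrt hn0.le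
    have hs2 : 2 ≤ Real.sqrt (n : ℝ) := by
      rw [show (2 : ℝ) = Real.sqrt 4 by
        rw [show (4 : ℝ) = 2 ^ 2 by norm_num, Real.sqrt_sq (by norm_num)]]
      exact Real.sqrt_le_sqrt (by linarith)
    have h1 : (j : ℝ) ≤ n := by nlinarith
    have h2 : j ≤ n := by exact_mod_cast h1
    omega
  have p3 := hs.chain (show 4 ≤ n by omega) (k := n) le_rfl j hj4
  have e : n + 1 + 2 * j = n + 2 * j + 1 := by ring
  rw [e]
  have hpos : 0 < A (n + 2 * j + 1) / μ4 ^ (n + 2 * j + 1) := by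
    rw [A_eq]
    have := wkc.cpos (n + 2 * j)
    positivity
  refine ⟨hpos, ?_⟩
  rw [hlog _ p1, hlog _ hmean]
  have p4 := r_back (show 4 ≤ n by omega)
  have hj0 : (0 : ℝ) ≤ j := Nat.cast_nonneg j
  have p5 : (j : ℝ) * (K * r n) + j * (2 * C * r n) ≤ j * (2 * (K + 2 * C) * r (n + 1)) := by
    have h1 : (K + 2 * C) * r n ≤ (K + 2 * C) * (2 * r (n + 1)) :=
      mul_le_mul_of_nonneg_left p4 (by positivity)
    have h2 := mul_le_mul_of_nonneg_left h1 hj0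
    linarith
  have p6 : Real.log (mean (n + 2 * j) f0) + Real.log (cN (n + 2 * j) / μ4 ^ (n + 2 * j)) -
      Real.log μ4 - (Real.log (mean n f0) + Real.log (cN n / μ4 ^ n) - Real.log μ4) =
      (Real.log (mean (n + 2 * j) f0) - Real.log (mean n f0)) +
      (Real.log (cN (n + 2 * j) / μ4 ^ (n + 2 * j)) - Real.log (cN n / μ4 ^ n)) := by ring
  rw [p6]
  exact (abs_add_le _ _).trans ((add_le_add p2 p3).trans p5)

/-- the steps for the moments -/
theorem mstep {p : ℝ} (hp : 0 ≤ p) :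
    ∃ K : ℝ, 0 ≤ K ∧ ∀ᶠ m : ℕ in atTop, ∀ j : ℕ, (j : ℝ) ≤ Real.sqrt m →
      0 < mo p (m + 2 * j) ∧
      |Real.log (mo p (m + 2 * j)) - Real.log (mo p m)| ≤ j * (K * r m) := by
  obtain ⟨C, B, hs⟩ := sm_mo hp
  have hC := hs.C0
  refine ⟨2 * C, by positivity, ?_⟩
  filter_upwards [eventually_ge_atTop 4] with m hm j hj
  refine ⟨mo_pos hp (by omega), ?_⟩
  have hm0 : (0 : ℝ) < m := by exact_mod_cast (show 0 < m by omega)
  have hj4 : m + 2 * j ≤ 4 * m := by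
    have h3 : Real.sqrt m ≤ m := by
      rw [Real.sqrt_le_left hm0.le]
      have : (1 : ℝ) ≤ m := by exact_mod_cast (show 1 ≤ m by omega)
      nlinarith
    have h1 : (j : ℝ) ≤ m := hj.trans h3
    have h2 : j ≤ m := by exact_mod_cast h1
    omega
  exact hs.chain hm (k := m) le_rfl j hj4

end Pool.Agent.P8H98.HY
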